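import Pool.Agent.Helper703.KL.Defs
import Pool.Agent.Helper703.KL.Main
import Pool.Agent.Helper703.KL.Exist1
import Pool.Agent.Helper703.KL.Exist2

set_option autoImplicit false

/-!
# Distinguished involutions and shortest elements of left cells: a counterexample

Let `(W, S)` be of affine type `A~_9` (Coxeter graph: a cycle with ten vertices).  No subset `D`
of `W` whatsoever satisfies both

(i) `λ(x⁻¹, x) ∈ D` for every shortest element `x` of a left cell, and
(ii) `d = λ(x⁻¹, x)` for every `d ∈ D` and every shortest element `x` of the left cell of `d`.

In particular the set `D_0` of distinguished involutions does not.  Reason: for the elements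
`x = [7,6,1,10,5,9,4,3,2,8]` (length 27) and `x' = [7,6,5,10,9,4,3,2,1,8]` (length 32) of the
parabolic subgroup `S_10`, both are shortest elements of their left cells in `W`, the element
`w = λ(x⁻¹, x) = [9,8,3,10,7,6,5,2,1,4]` (length 36) lies in the left cell of `x'`, and
`λ(x'⁻¹, x')` has length 39.
-/

namespace Pool.Agent.Results.MP_8cdcda_al.NoSet

open Module Pool.Agent.Helper703.KL

/-- First part: the Iwahori-Hecke algebra of type `A~_9`, its bar involution and its
Kazhdan-Lusztig basis exist, so that the second part is not vacuous.
Second part: for every Coxeter system `(W, S)` of type `A~_9`, every model `H` of its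
Iwahori-Hecke algebra with standard basis `T`, bar involution `bar` and Kazhdan-Lusztig basis `C`,
and every subset `D` of `W`, the statements (i) and (ii) for `D` do not both hold. -/
theorem result :
    (∃ (H : Type) (_ : Ring H) (_ : Algebra A H) (T : Basis affA.Group A H) (bar : H →+* H)
      (C : Basis affA.Group A H), IsHecke affA.toCoxeterSystem T ∧
        IsBar affA.toCoxeterSystem T bar ∧ IsKLBasis affA.toCoxeterSystem T bar C) ∧
    (∀ (W : Type) [Group W] (cs : CoxeterSystem affA W) (H : Type) [Ring H] [Algebra A H]
      (T : Basis W A H) (bar : H →+* H) (C : Basis W A H),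
      IsHecke cs T → IsBar cs T bar → IsKLBasis cs T bar C →
      ∀ D : Set W, ¬ (PartI cs T C D ∧ PartII cs T C D)) := by
  refine ⟨?_, ?_⟩
  · have hT := TB_isHecke (cs := affA.toCoxeterSystem)
    have hb := hT.barR_isBar
    obtain ⟨C, hC⟩ := exists_KLBasis hT hb
    exact ⟨HT affA.toCoxeterSystem, inferInstance, inferInstance, TB affA.toCoxeterSystem,
      hT.barR, C, hT, hb, hC⟩
  · intro W _ cs H _ _ T bar C hT hb hC D
    exact main hT hb hC D

end Pool.Agent.Results.MP_8cdcda_al.NoSet
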